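import Pool.Agent.Helper72.TM.Auto

/-!
# Holomorphic immersions of the hypersurfaces `a(x) y + B(σ(x), z) = 1`, `a` without simple roots
-/

open MvPolynomial Pool.Agent.Helper40.IM Pool.Agent.Helper72.TM

namespace Pool.Agent.Results.MP_1994dd_an.MultipleFibres

/-- Let `a, σ ∈ ℂ[x]`, `a ≠ 0`, `B ∈ ℂ[s, z₁, …, z_d]`, and let `F` be obtained from
`a(x) y + B(σ(x), z₁, …, z_d)` by a polynomial automorphism of `ℂ^(d+2)`. Suppose that
* all roots `r` of `a` are multiple and `σ'(r) ≠ 0` (`h1`);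
* roots `r, r'` of `a` with `σ(r) = σ(r')` have the same multiplicity (`h2`), and for roots with
  `σ(r) ≠ σ(r')` the sets `{B(σ(r), ·) = 1}` and `{B(σ(r'), ·) = 1}` are disjoint (`h3`);
* for every root `r` of `a` there is a polynomial `μ(z)` without zeros on `{B(σ(r), ·) = 1}` such
  that `μ(z) (∂B/∂s)(σ(r), z)` takes finitely many values on the set of singular points of
  `{B(σ(r), ·) = 1}` (`h4`).
If `{F = 1}` is smooth then it immerses holomorphically into `ℂ^(d+1)`. -/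
theorem result (d : ℕ) (a σ : Polynomial ℂ) (ha : a ≠ 0) (B : MvPolynomial (Fin (d + 1)) ℂ)
    (h1 : ∀ r, a.IsRoot r → 2 ≤ a.rootMultiplicity r ∧ σ.derivative.eval r ≠ 0)
    (h2 : ∀ r r', a.IsRoot r → a.IsRoot r' → σ.eval r = σ.eval r' →
      a.rootMultiplicity r = a.rootMultiplicity r')
    (h3 : ∀ r r', a.IsRoot r → a.IsRoot r' → σ.eval r ≠ σ.eval r' → ∀ z : Fin d → ℂ,
      eval (Fin.cons (σ.eval r) z) B = 1 → eval (Fin.cons (σ.eval r') z) B ≠ 1)
    (h4 : ∀ r, a.IsRoot r → ∃ μ : MvPolynomial (Fin d) ℂ,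
      (∀ z : Fin d → ℂ, eval (Fin.cons (σ.eval r) z) B = 1 → eval z μ ≠ 0) ∧
      {w : ℂ | ∃ z : Fin d → ℂ, eval (Fin.cons (σ.eval r) z) B = 1 ∧
        (∀ i : Fin d, eval (Fin.cons (σ.eval r) z) (pderiv i.succ B) = 0) ∧
        w = eval z μ * eval (Fin.cons (σ.eval r) z) (pderiv 0 B)}.Finite)
    (τ : MvPolynomial (Fin (d + 2)) ℂ ≃ₐ[ℂ] MvPolynomial (Fin (d + 2)) ℂ)
    (F : MvPolynomial (Fin (d + 2)) ℂ)
    (hF : F = τ (Polynomial.aeval (X 0) a * X 1 +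
      bind₁ (Fin.cons (Polynomial.aeval (X 0) σ) (fun i => X i.succ.succ)) B))
    (hs : ∀ w, eval w F = 1 → ∃ i, eval w (pderiv i F) ≠ 0) :
    ∃ Φ : (Fin (d + 2) → ℂ) → (Fin (d + 1) → ℂ), Differentiable ℂ Φ ∧
      ∀ w, eval w F = 1 → ∀ v, ∑ i, v i * eval w (pderiv i F) = 0 →
        fderiv ℂ Φ w v = 0 → v = 0 := by
  refine of_auto _ τ F hF hs fun hsm => ?_
  refine (hyper a σ B ha h1 h2 h3 h4 _ (fun w => ?_) hsm).2
  have e1 : ∀ p : Polynomial ℂ, eval w (Polynomial.aeval (X 0) p) = p.eval (w 0) := by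
    intro p
    have e2 := Polynomial.aeval_algHom_apply (aeval w : MvPolynomial (Fin (d + 2)) ℂ →ₐ[ℂ] ℂ)
      (X 0) p
    simpa [aeval_eq_eval] using e2.symm
  rw [map_add, map_mul, e1, eval_X]
  congr 1
  have e3 : ((aeval w : MvPolynomial (Fin (d + 2)) ℂ →ₐ[ℂ] ℂ).comp
      (bind₁ (Fin.cons (Polynomial.aeval (X 0) σ) (fun i : Fin d => X i.succ.succ)))) =
      (aeval (Fin.cons (σ.eval (w 0)) (fun i : Fin d => w i.succ.succ) : Fin (d + 1) → ℂ) :
        MvPolynomial (Fin (d + 1)) ℂ →ₐ[ℂ] ℂ) := by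
    apply MvPolynomial.algHom_ext
    intro j
    refine Fin.cases ?_ (fun i => ?_) j
    · simpa [aeval_eq_eval] using e1 σ
    · simp
  have e4 := congrArg (fun L => L B) e3
  simpa [aeval_eq_eval] using e4

end Pool.Agent.Results.MP_1994dd_an.MultipleFibres
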