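import Pool.Agent.Helper72.CF.Cubic
import Pool.Agent.Helper62.IM.CU
import Pool.Agent.Helper33.IM.K
import Pool.Agent.Helper33.IM.M

/-!
# Holomorphic immersions of `{F = 1}` for all plane cubic forms `F`

The general theorem is about `w₀ᵏ g(w₁, …, wₙ) + f(w₁, …, wₙ) = 1`, `k = 1, 2`, with `g`, `f`
semi-invariants of a flow.
-/

open MvPolynomial Pool.Agent.Helper40.IM Pool.Agent.Helper72.IM Pool.Agent.Helper72.CF

namespace Pool.Agent.Results.MP_1994dd_an.PlaneCubics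

/-- `{F = 1}` has a holomorphic immersion into `ℂⁿ`, as in the frozen statement. -/
def Immerses {n : ℕ} (F : MvPolynomial (Fin (n + 1)) ℂ) : Prop :=
  ∃ Φ : (Fin (n + 1) → ℂ) → (Fin n → ℂ), Differentiable ℂ Φ ∧
    ∀ w, eval w F = 1 → ∀ v, ∑ i, v i * eval w (pderiv i F) = 0 → fderiv ℂ Φ w v = 0 → v = 0

theorem exists_H1 (p q : ℝ) (hp : 0 < p) (hq : 0 < q) : ∃ H : ℂ × ℂ → ℂ, Differentiable ℂ H ∧
    ∀ w g : ℂ, g + fderiv ℂ H (w, g) (-((q : ℂ) - (q - p) * (w * g)), (p : ℂ) * g ^ 2) ≠ 0 :=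
  exists_H_aux p q hp hq (fun c hc hc1 => Pool.Agent.Helper33.IM.exists_M c hc hc1)
    (fun α c hc => Pool.Agent.Helper33.IM.exists_K α c hc)

theorem exists_Hk (k : ℕ) (hk : k = 1 ∨ k = 2) (p q : ℝ) (hp : 0 < p) (hq : 0 < q) :
    ∃ H : ℂ × ℂ → ℂ, Differentiable ℂ H ∧ ∀ w g : ℂ, deriv (fun w : ℂ => w ^ k) w * g +
      fderiv ℂ H (w, g) (-((q : ℂ) - (q - p) * (w ^ k * g)),
        (p : ℂ) * deriv (fun w : ℂ => w ^ k) w * g ^ 2) ≠ 0 := by
  rcases hk with rfl | rfl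
  · obtain ⟨H, hH, hH1⟩ := exists_H1 p q hp hq
    refine ⟨H, hH, fun w g => ?_⟩
    have h1 := hH1 w g
    simpa using h1
  · obtain ⟨H, hH, hH1⟩ := exists_H2 p q hp hq
    refine ⟨H, hH, fun w g => ?_⟩
    have h1 := hH1 w g
    simpa using h1

/-- The general theorem: `w₀ᵏ g + f`, `k = 1, 2`, with `g`, `f` semi-invariants of a flow. -/
theorem semi_invariant_case (n k : ℕ) (hk : k = 1 ∨ k = 2) (g f : MvPolynomial (Fin n) ℂ)
    (p q : ℝ) (hp : 0 < p) (hq : 0 < q)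
    (φ : ℂ → (Fin n → ℂ) → (Fin n → ℂ)) (hφ : IsFlow φ)
    (hg : ∀ t z, eval (φ t z) g = Complex.exp (p * t) * eval z g)
    (hf : ∀ t z, eval (φ t z) f = Complex.exp (q * t) * eval z f)
    (σ : MvPolynomial (Fin (n + 1)) ℂ ≃ₐ[ℂ] MvPolynomial (Fin (n + 1)) ℂ) :
    Immerses (σ (X 0 ^ k * rename Fin.succ g + rename Fin.succ f)) := by
  set F₀ : MvPolynomial (Fin (n + 1)) ℂ := X 0 ^ k * rename Fin.succ g + rename Fin.succ f with hF₀
  let α : (Fin (n + 1) → ℂ) → (Fin (n + 1) → ℂ) := fun w i => eval w (σ (X i))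
  let β : (Fin (n + 1) → ℂ) → (Fin (n + 1) → ℂ) := fun w i => eval w (σ.symm (X i))
  have hα : ∀ w p, eval w (σ p) = eval (α w) p := by
    intro w p
    have h1 : (aeval w : MvPolynomial (Fin (n + 1)) ℂ →ₐ[ℂ] ℂ).comp (σ : _ →ₐ[ℂ] _) =
        (aeval (α w) : MvPolynomial (Fin (n + 1)) ℂ →ₐ[ℂ] ℂ) := by
      apply MvPolynomial.algHom_ext
      intro i
      simp [α, aeval_eq_eval]
    have h2 := congrArg (fun L => L p) h1
    simpa [aeval_eq_eval] using h2
  have hβα : ∀ w, β (α w) = w := by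
    intro w
    ext i
    change eval (α w) (σ.symm (X i)) = w i
    rw [← hα w, AlgEquiv.apply_symm_apply, eval_X]
  have hdα : Differentiable ℂ α := differentiable_pi.2 fun i => differentiable_eval _
  have hdβ : Differentiable ℂ β := differentiable_pi.2 fun i => differentiable_eval _
  obtain ⟨hEd, hΦ⟩ := core3 (fun w => w ^ k) (by fun_prop) φ hφ (fun z => eval z g)
    (fun z => eval z f) (differentiable_eval g) (differentiable_eval f) p q hg hf
    (exists_Hk k hk p q hp hq)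
    (fun w => eval w F₀) (by
      intro w
      rw [hF₀, map_add, map_mul, map_pow, eval_rename, eval_rename, eval_X]
      rfl)
  exact transport α β hdα hdβ hβα (fun w => eval w F₀) hEd hΦ (σ F₀) (fun w => hα w _)

/-- Forms of degree `d ≥ 2` in `n + 1` variables with a point `e ≠ 0` of multiplicity `≥ d - 1`
(the second derivative of `F` in the direction `e` vanishes identically). -/
theorem multiplicity_case {n d : ℕ} (F : MvPolynomial (Fin (n + 1)) ℂ) (hd : 2 ≤ d)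
    (hF : F.IsHomogeneous d) (e : Fin (n + 1) → ℂ) (he0 : e ≠ 0)
    (he : ∑ i, ∑ j, C (e i * e j) * pderiv j (pderiv i F) = 0) : Immerses F := by
  refine forms_aux hd F hF e he0 (fun z => ?_) exists_H1
  have h1 := congrArg (fun P => eval z P) he
  simpa [map_sum] using h1

/-- Singular cubic forms. -/
theorem singular_cubic_case {n : ℕ} (F : MvPolynomial (Fin (n + 1)) ℂ) (hF : F.IsHomogeneous 3)
    (e : Fin (n + 1) → ℂ) (he0 : e ≠ 0) (he : ∀ i, eval e (pderiv i F) = 0) : Immerses F :=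
  forms_aux (by norm_num) F hF e he0 (fun z => cubic_line F hF e he z) exists_H1

/-- All plane cubic forms. -/
theorem plane_cubic_case (F : MvPolynomial (Fin 3) ℂ) (hF : F.IsHomogeneous 3) :
    Immerses (n := 2) F := by
  obtain ⟨T, hs1, hs2, hT, hsing⟩ := exists_tri F hF
  by_cases h0 : ∀ e, T e e e = 0
  · refine ⟨fun _ => 0, differentiable_const _, fun w hw => ?_⟩
    rw [← hT, h0] at hw
    exact absurd hw zero_ne_one
  · push Not at h0
    obtain ⟨e₀, he₀⟩ := h0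
    obtain ⟨e, he0, he, k, hk0, hk⟩ := exists_common_zero T hs1 hs2 e₀ he₀
    by_cases hy : ∀ y, T e e y = 0
    · exact singular_cubic_case F hF e he0 (hsing e hy)
    · push Not at hy
      obtain ⟨y, hy⟩ := hy
      exact smooth_case F T hs1 hs2 hT e he0 he k hk0 hk y hy

/-- Let `F` be a cubic form in three variables, or let `F = σ(w₀ᵏ g(w₁, …, wₙ) + f(w₁, …, wₙ))`
with `k = 1` or `2`, `σ` a polynomial automorphism and `g`, `f` semi-invariants of weights
`p, q > 0` of a holomorphic flow on `ℂⁿ`. Then `{F = 1}` immerses holomorphically into `ℂⁿ`.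
(Smoothness of `{F = 1}` is automatic.) -/
theorem result (n : ℕ) (F : MvPolynomial (Fin (n + 1)) ℂ)
    (h : (n = 2 ∧ F.IsHomogeneous 3) ∨
      ∃ (k : ℕ) (g f : MvPolynomial (Fin n) ℂ) (p q : ℝ) (φ : ℂ → (Fin n → ℂ) → (Fin n → ℂ))
        (σ : MvPolynomial (Fin (n + 1)) ℂ ≃ₐ[ℂ] MvPolynomial (Fin (n + 1)) ℂ),
        (k = 1 ∨ k = 2) ∧ 0 < p ∧ 0 < q ∧ IsFlow φ ∧
        (∀ t z, eval (φ t z) g = Complex.exp (p * t) * eval z g) ∧
        (∀ t z, eval (φ t z) f = Complex.exp (q * t) * eval z f) ∧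
        F = σ (X 0 ^ k * rename Fin.succ g + rename Fin.succ f)) :
    ∃ Φ : (Fin (n + 1) → ℂ) → (Fin n → ℂ), Differentiable ℂ Φ ∧
      ∀ w, eval w F = 1 → ∀ v, ∑ i, v i * eval w (pderiv i F) = 0 →
        fderiv ℂ Φ w v = 0 → v = 0 := by
  rcases h with ⟨rfl, hF⟩ | ⟨k, g, f, p, q, φ, σ, hk, hp, hq, hφ, hg, hf, rfl⟩
  · exact plane_cubic_case F hF
  · exact semi_invariant_case n k hk g f p q hp hq φ hφ hg hf σ

end Pool.Agent.Results.MP_1994dd_an.PlaneCubics
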