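import Pool.Agent.Helper72.TM.Surf4
import Pool.Agent.Helper72.TM.Auto

/-!
# Holomorphic immersions of all smooth surfaces `a(x) y + b(x, z) = 1` into `ℂ²`
-/

open MvPolynomial Pool.Agent.Helper40.IM Pool.Agent.Helper72.TM

namespace Pool.Agent.Results.MP_1994dd_an.RuledSurfaces

/-- The function `w ↦ eval w F₀`, its derivative and the surface `a(x) y = q(x, z)`. -/
theorem aux (a : Polynomial ℂ) (ha : a ≠ 0) (p : Polynomial (Polynomial ℂ))
    (E₀ : (Fin 3 → ℂ) → ℂ) (hE₀ : ∀ w, E₀ w = a.eval (w 0) * w 1 + (1 - ev p (w 0, w 2)))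
    (hsm : ∀ w, E₀ w = 1 → ∃ v, fderiv ℂ E₀ w v ≠ 0) :
    ∃ Φ : (Fin 3 → ℂ) → (Fin 2 → ℂ), Differentiable ℂ Φ ∧
      ∀ w, E₀ w = 1 → ∀ v, fderiv ℂ E₀ w v = 0 → fderiv ℂ Φ w v = 0 → v = 0 := by
  let pr : Fin 3 → ((Fin 3 → ℂ) →L[ℂ] ℂ) := fun i => ContinuousLinearMap.proj i
  have hp : ∀ (i : Fin 3) (w : Fin 3 → ℂ), HasFDerivAt (fun w : Fin 3 → ℂ => w i) (pr i) w :=
    fun i w => (pr i).hasFDerivAt
  have hEd : ∀ w, HasFDerivAt E₀ ((a.eval (w 0) • pr 1 + w 1 • (a.derivative.eval (w 0) • pr 0)) +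
      -((fderiv ℂ (ev p) (w 0, w 2)).comp ((pr 0).prod (pr 2)))) w := by
    intro w
    rw [funext hE₀]
    have e1 : HasFDerivAt (fun w : Fin 3 → ℂ => a.eval (w 0))
        (a.derivative.eval (w 0) • pr 0) w :=
      HasDerivAt.comp_hasFDerivAt (f := fun w : Fin 3 → ℂ => w 0) w (a.hasDerivAt (w 0)) (hp 0 w)
    have e2 : HasFDerivAt (fun w : Fin 3 → ℂ => ev p (w 0, w 2))
        ((fderiv ℂ (ev p) (w 0, w 2)).comp ((pr 0).prod (pr 2))) w :=
      HasFDerivAt.comp (f := fun w : Fin 3 → ℂ => (w 0, w 2)) w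
        (differentiable_ev p (w 0, w 2)).hasFDerivAt ((hp 0 w).prodMk (hp 2 w))
    exact (e1.fun_mul (hp 1 w)).fun_add (e2.const_sub 1)
  have hEv : ∀ w v : Fin 3 → ℂ, fderiv ℂ E₀ w v = a.derivative.eval (w 0) * w 1 * v 0 +
      a.eval (w 0) * v 1 - fderiv ℂ (ev p) (w 0, w 2) (v 0, v 2) := by
    intro w v
    rw [(hEd w).fderiv]
    simp only [_root_.add_apply, _root_.smul_apply, _root_.neg_apply,
      ContinuousLinearMap.comp_apply, smul_eq_mul]
    have e0 : ∀ i, pr i v = v i := fun i => rfl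
    have e1 : ((pr 0).prod (pr 2)) v = (v 0, v 2) := rfl
    rw [e1, e0, e0]
    ring
  obtain ⟨Φ, hΦ, hΦ1⟩ := imm_all a.natDegree a ha rfl p (by
    intro x y z e1 e2 e3 e4
    obtain ⟨v, hv⟩ := hsm ![x, y, z] (by
      rw [hE₀]
      simp only [Matrix.cons_val_zero, Matrix.cons_val_one, Matrix.cons_val]
      linear_combination e1)
    apply hv
    rw [hEv, fderiv_split]
    simp only [Matrix.cons_val_zero, Matrix.cons_val_one, Matrix.cons_val]
    rw [e3, e4]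
    linear_combination (v 0) * e2)
  let J : (Fin 3 → ℂ) →L[ℂ] ℂ × ℂ × ℂ := (pr 0).prod ((pr 1).prod (pr 2))
  let O : ℂ × ℂ →L[ℂ] (Fin 2 → ℂ) := ContinuousLinearMap.pi
    ![ContinuousLinearMap.fst ℂ ℂ ℂ, ContinuousLinearMap.snd ℂ ℂ ℂ]
  have hd : ∀ w, HasFDerivAt (fun w => O (Φ (J w))) (O.comp ((fderiv ℂ Φ (J w)).comp J)) w :=
    fun w => O.hasFDerivAt.comp w ((hΦ _).hasFDerivAt.comp w J.hasFDerivAt)
  refine ⟨fun w => O (Φ (J w)), fun w => (hd w).differentiableAt, fun w hw v hv hv' => ?_⟩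
  rw [(hd w).fderiv] at hv'
  have e1 : fderiv ℂ Φ (w 0, w 1, w 2) (v 0, v 1, v 2) = 0 :=
    Prod.ext (congrFun hv' 0) (congrFun hv' 1)
  obtain ⟨v0, v1, v2⟩ := hΦ1 (w 0) (w 1) (w 2) (by
    rw [hE₀] at hw
    linear_combination hw) (v 0) (v 1) (v 2) (by
    rw [hEv] at hv
    linear_combination hv) e1
  ext i
  fin_cases i
  · exact v0
  · exact v1
  · exact v2

/-- Let `a ∈ ℂ[x]`, `a ≠ 0`, `b ∈ ℂ[x, z]`, and let `F ∈ ℂ[w₀, w₁, w₂]` be obtained from
`a(x) y + b(x, z)` by a polynomial automorphism of `ℂ³`. If `{F = 1}` is smooth then it immerses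
holomorphically into `ℂ²`. -/
theorem result (a : Polynomial ℂ) (ha : a ≠ 0) (b : MvPolynomial (Fin 2) ℂ)
    (τ : MvPolynomial (Fin 3) ℂ ≃ₐ[ℂ] MvPolynomial (Fin 3) ℂ) (F : MvPolynomial (Fin 3) ℂ)
    (hF : F = τ (Polynomial.aeval (X 0) a * X 1 + rename ![0, 2] b))
    (hs : ∀ w, eval w F = 1 → ∃ i, eval w (pderiv i F) ≠ 0) :
    ∃ Φ : (Fin 3 → ℂ) → (Fin 2 → ℂ), Differentiable ℂ Φ ∧
      ∀ w, eval w F = 1 → ∀ v, ∑ i, v i * eval w (pderiv i F) = 0 →
        fderiv ℂ Φ w v = 0 → v = 0 := by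
  refine of_auto _ τ F hF hs fun hsm => ?_
  let B : Polynomial (Polynomial ℂ) := aeval ![Polynomial.C Polynomial.X, Polynomial.X] b
  have hB : ∀ x z : ℂ, ev B (x, z) = eval ![x, z] b := by
    intro x z
    let g : Polynomial (Polynomial ℂ) →+* ℂ :=
      (Polynomial.evalRingHom x).comp (Polynomial.evalRingHom (Polynomial.C z))
    have e1 : g B = eval ![x, z] b := by
      have e2 : g.comp (aeval ![Polynomial.C Polynomial.X, Polynomial.X] :
          MvPolynomial (Fin 2) ℂ →ₐ[ℂ] Polynomial (Polynomial ℂ)).toRingHom =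
          (eval ![x, z] : MvPolynomial (Fin 2) ℂ →+* ℂ) := by
        apply MvPolynomial.ringHom_ext
        · intro c
          simp [g]
        · intro i
          fin_cases i
          · simp [g]
          · simp [g]
      exact congrArg (fun L => L b) e2
    exact e1
  refine aux a ha (1 - B) _ (fun w => ?_) hsm
  have e1 : eval w (Polynomial.aeval (X 0 : MvPolynomial (Fin 3) ℂ) a) = a.eval (w 0) := by
    have e2 := Polynomial.aeval_algHom_apply (aeval w : MvPolynomial (Fin 3) ℂ →ₐ[ℂ] ℂ) (X 0) a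
    simpa [aeval_eq_eval] using e2.symm
  have e2 : ev (1 - B) (w 0, w 2) = 1 - ev B (w 0, w 2) := by simp [ev]
  have e3 : w ∘ ![0, 2] = ![w 0, w 2] := by
    funext i
    fin_cases i <;> rfl
  rw [map_add, map_mul, e1, eval_X, eval_rename, e2, hB, sub_sub_cancel, e3]

end Pool.Agent.Results.MP_1994dd_an.RuledSurfaces
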