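import Pool.Agent.Helper40.IM.Core

/-!
# Holomorphic immersions of weighted homogeneous suspensions `A(w₀) + B(w₀) G(w₁, …, wₙ) = 1`
-/

open MvPolynomial Pool.Agent.Helper40.IM

namespace Pool.Agent.Results.MP_1994dd_an.WeightedHomogeneous

/-- Let `A`, `B` be polynomials in one variable and let `G` be a polynomial in `n` variables that
is a semi-invariant of nonzero weight of a holomorphic one-parameter group `φ` of automorphisms of
`ℂⁿ` (for example a weighted homogeneous polynomial, `φ t z = (e^{q₁ t} z₁, …, e^{qₙ t} zₙ)`).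
Assume that `G` has a critical point on its zero set, or that `1 - A` is squarefree. Let `F` be
obtained from `A(w₀) + B(w₀) G(w₁, …, wₙ)` by any polynomial change of coordinates `σ` of `ℂⁿ⁺¹`.
If `{F = 1}` is smooth then it has a holomorphic immersion into `ℂⁿ`. -/
theorem result (n : ℕ) (A B : Polynomial ℂ) (G : MvPolynomial (Fin n) ℂ)
    (φ : ℂ → (Fin n → ℂ) → (Fin n → ℂ)) (hφ : IsFlow φ)
    (hG : ∀ t z, eval (φ t z) G = Complex.exp t * eval z G)
    (hA : Squarefree (1 - A) ∨ ∃ z, eval z G = 0 ∧ ∀ i, eval z (pderiv i G) = 0)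
    (σ : MvPolynomial (Fin (n + 1)) ℂ ≃ₐ[ℂ] MvPolynomial (Fin (n + 1)) ℂ)
    (F : MvPolynomial (Fin (n + 1)) ℂ)
    (hF : F = σ (Polynomial.aeval (X 0) A + Polynomial.aeval (X 0) B * rename Fin.succ G))
    (hs : ∀ w, eval w F = 1 → ∃ i, eval w (pderiv i F) ≠ 0) :
    ∃ f : (Fin (n + 1) → ℂ) → (Fin n → ℂ), Differentiable ℂ f ∧
      ∀ w, eval w F = 1 → ∀ v, ∑ i, v i * eval w (pderiv i F) = 0 →
        fderiv ℂ f w v = 0 → v = 0 := by
  set F₀ : MvPolynomial (Fin (n + 1)) ℂ :=
    Polynomial.aeval (X 0) A + Polynomial.aeval (X 0) B * rename Fin.succ G with hF₀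
  let α : (Fin (n + 1) → ℂ) → (Fin (n + 1) → ℂ) := fun w i => eval w (σ (X i))
  let β : (Fin (n + 1) → ℂ) → (Fin (n + 1) → ℂ) := fun w i => eval w (σ.symm (X i))
  have hα : ∀ w p, eval w (σ p) = eval (α w) p := by
    intro w p
    have h1 : (aeval w : MvPolynomial (Fin (n + 1)) ℂ →ₐ[ℂ] ℂ).comp (σ : _ →ₐ[ℂ] _) =
        (aeval (α w) : MvPolynomial (Fin (n + 1)) ℂ →ₐ[ℂ] ℂ) := by
      apply MvPolynomial.algHom_ext
      intro i
      simp [α, aeval_eq_eval]
    have h2 := congrArg (fun L => L p) h1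
    simpa [aeval_eq_eval] using h2
  have hβ : ∀ w p, eval w (σ.symm p) = eval (β w) p := by
    intro w p
    have h1 : (aeval w : MvPolynomial (Fin (n + 1)) ℂ →ₐ[ℂ] ℂ).comp (σ.symm : _ →ₐ[ℂ] _) =
        (aeval (β w) : MvPolynomial (Fin (n + 1)) ℂ →ₐ[ℂ] ℂ) := by
      apply MvPolynomial.algHom_ext
      intro i
      simp [β, aeval_eq_eval]
    have h2 := congrArg (fun L => L p) h1
    simpa [aeval_eq_eval] using h2
  have hαβ : ∀ w, α (β w) = w := by
    intro w
    ext i
    change eval (β w) (σ (X i)) = w i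
    rw [← hβ w, AlgEquiv.symm_apply_apply, eval_X]
  have hβα : ∀ w, β (α w) = w := by
    intro w
    ext i
    change eval (α w) (σ.symm (X i)) = w i
    rw [← hα w, AlgEquiv.apply_symm_apply, eval_X]
  have hdα : Differentiable ℂ α := differentiable_pi.2 fun i => differentiable_eval _
  have hdβ : Differentiable ℂ β := differentiable_pi.2 fun i => differentiable_eval _
  let E₀ : (Fin (n + 1) → ℂ) → ℂ := fun w => eval w F₀
  have hE₀ : Differentiable ℂ E₀ := differentiable_eval _
  have hE : (fun w => eval w F) = fun w => E₀ (α w) := by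
    ext w
    rw [hF]
    exact hα w _
  have hEd : ∀ w v, fderiv ℂ (fun w => eval w F) w v = fderiv ℂ E₀ (α w) (fderiv ℂ α w v) := by
    intro w v
    rw [hE]
    have h1 : HasFDerivAt (fun w => E₀ (α w)) ((fderiv ℂ E₀ (α w)).comp (fderiv ℂ α w)) w :=
      (hE₀ (α w)).hasFDerivAt.comp w (hdα w).hasFDerivAt
    rw [h1.fderiv]
    rfl
  obtain ⟨f, hf, hfw⟩ := core A B G φ hφ hG hA E₀ (by
      intro w
      change eval w F₀ = _
      rw [hF₀, map_add, map_mul, eval_rename]
      have h5 : ∀ R : Polynomial ℂ, eval w (Polynomial.aeval (X 0) R) = R.eval (w 0) := by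
        intro R
        have h6 := Polynomial.aeval_algHom_apply
          (aeval w : MvPolynomial (Fin (n + 1)) ℂ →ₐ[ℂ] ℂ) (X 0) R
        rw [aeval_X, aeval_eq_eval] at h6
        rw [Polynomial.coe_aeval_eq_eval] at h6
        exact h6.symm
      rw [h5, h5]
      rfl) (by
      intro u hu h0
      obtain ⟨i, hi⟩ := hs (β u) (by
        have h1 : eval (β u) F = E₀ (α (β u)) := congrFun hE (β u)
        rw [h1, hαβ, hu])
      apply hi
      have h2 := fderiv_eval F (β u) (Pi.single i 1)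
      rw [hEd, hαβ, h0] at h2
      rw [Finset.sum_eq_single i] at h2
      · simpa using h2.symm
      · intro j _ hj
        simp [hj]
      · simp)
  refine ⟨fun w => f (α w), hf.comp hdα, fun w hw v hv hv' => ?_⟩
  have h1 : fderiv ℂ α w v = 0 := by
    refine hfw (α w) ?_ _ ?_ ?_
    · have h1 : eval w F = E₀ (α w) := congrFun hE w
      rw [← h1, hw]
    · rw [← hEd, fderiv_eval]
      exact hv
    · have h2 : HasFDerivAt (fun w => f (α w)) ((fderiv ℂ f (α w)).comp (fderiv ℂ α w)) w :=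
        (hf (α w)).hasFDerivAt.comp w (hdα w).hasFDerivAt
      rw [h2.fderiv] at hv'
      exact hv'
  have h2 : HasFDerivAt (fun w => β (α w)) ((fderiv ℂ β (α w)).comp (fderiv ℂ α w)) w :=
    (hdβ (α w)).hasFDerivAt.comp w (hdα w).hasFDerivAt
  have h3 : HasFDerivAt (fun w => β (α w)) (ContinuousLinearMap.id ℂ _) w := by
    rw [funext hβα]
    exact hasFDerivAt_id w
  have h4 := congrArg (fun L => L v) (h3.unique h2)
  simp only [ContinuousLinearMap.comp_apply, h1, map_zero] at h4
  exact h4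

end Pool.Agent.Results.MP_1994dd_an.WeightedHomogeneous
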